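import Pool.Agent.Gen.TY.Z.A_00
import Pool.Agent.Gen.TY.Z.A_01
import Pool.Agent.Gen.TY.Z.A_02
import Pool.Agent.Gen.TY.Z.A_03
import Pool.Agent.Gen.TY.Z.B_04
import Pool.Agent.Gen.TY.Z.B_05
import Pool.Agent.Gen.TY.Z.B_06
import Pool.Agent.Gen.TY.Z.B_07
import Pool.Agent.Gen.TY.Z.B_08

/-!
MP_8ee768_co, project TH-Y', stage Z: all pair roots (generated).
-/

set_option autoImplicit false

namespace Pool.Agent.Gen.TY.Z

open Pool.Agent.Helper89.TY Pool.Agent.Helper89.CV
open Pool.Agent.Helper67.TY (repA repB)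
open Pool.Agent.Helper80.TY (rootsA rootsB)
open Pool.Agent.Gen.TY.EN (a0_0 b0_0)
open Pool.Agent.Helper25.EN (CountA CountB)

theorem ZRows.of_eq {T : ℕ} {tab : List ℕ} {l l' : List (ℕ × ℕ)} (h : ZRows T tab l) (e : l = l') :
    ZRows T tab l' := e ▸ h

theorem rowsA : ZRows repA a0_0 rootsA :=
  ZRows.of_eq (ZRows.append (ZRows.append (ZRows.append rows_A_00 rows_A_01) rows_A_02) rows_A_03)
    (by decide +kernel)

theorem rowsB : ZRows repB b0_0 rootsB :=
  ZRows.of_eq (ZRows.append (ZRows.append (ZRows.append (ZRows.append (ZRows.append (ZRows.append (ZRows.append rows_B_04_0 rows_B_04_1) rows_B_05_0) rows_B_05_1) rows_B_06_0) rows_B_06_1) rows_B_07) rows_B_08)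
    (by decide +kernel)

/-- **stage Z** -/
theorem h8 (hA : CountA) (hB : CountB) : ∀ B x y, ZH B x y → False :=
  h8_of hA hB rowsA rowsB

end Pool.Agent.Gen.TY.Z
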